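import Pool.Agent.H54.CPMult

/-!
Certificates and minimum certificates.
-/

set_option autoImplicit false

open scoped ComplexOrder ComplexConjugate InnerProductSpace
open Matrix

namespace Pool.Agent.H54

universe u

variable {X : Type u}

theorem psd_hadamard {Y : Type*} {A B : Matrix Y Y ℂ} (hA : A.PosSemidef) (hB : B.PosSemidef) :
    (A ⊙ B).PosSemidef := hA.hadamard hB

theorem psd_congr {Y : Type*} {A B : Matrix Y Y ℂ} (hA : A.PosSemidef) (h : B = A) :
    B.PosSemidef := h ▸ hA

theorem IsKernel.diag_nonneg {k : X → X → ℂ} (hk : IsKernel k) (x : X) : 0 ≤ k x x := by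
  have := (isKernel_iff.mp hk).diag_nonneg (i := x)
  simpa using this

theorem IsKernel.diag_re_nonneg {k : X → X → ℂ} (hk : IsKernel k) (x : X) : 0 ≤ (k x x).re :=
  (Complex.le_def.mp (hk.diag_nonneg x)).1

theorem IsKernel.diag_eq_re {k : X → X → ℂ} (hk : IsKernel k) (x : X) :
    k x x = ((k x x).re : ℂ) := by
  have h := (Complex.le_def.mp (hk.diag_nonneg x)).2
  apply Complex.ext
  · simp
  · simpa using h.symm

theorem IsKernel.cauchy_schwarz {k : X → X → ℂ} (hk : IsKernel k) (x y : X) :
    Complex.normSq (k x y) ≤ (k x x).re * (k y y).re := by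
  have h := (hk 2 ![x, y]).det_nonneg
  rw [Matrix.det_fin_two] at h
  simp only [Matrix.of_apply, Matrix.cons_val_zero, Matrix.cons_val_one] at h
  rw [← hk.star y x, Complex.mul_conj, hk.diag_eq_re x, hk.diag_eq_re y] at h
  have h2 : (0 : ℂ) ≤ (((k x x).re * (k y y).re - Complex.normSq (k x y) : ℝ) : ℂ) := by
    push_cast
    exact h
  have h3 : 0 ≤ (k x x).re * (k y y).re - Complex.normSq (k x y) := by exact_mod_cast h2
  linarith

theorem IsKernel.diag_ne_zero {k : X → X → ℂ} (hk : IsKernel k) {x y : X} (h : k x y ≠ 0) :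
    k x x ≠ 0 ∧ k y y ≠ 0 := by
  have h1 := hk.cauchy_schwarz x y
  have h2 : 0 < Complex.normSq (k x y) := Complex.normSq_pos.mpr h
  constructor
  · intro h3
    rw [h3] at h1
    simp only [Complex.zero_re, zero_mul] at h1
    linarith
  · intro h3
    rw [h3] at h1
    simp only [Complex.zero_re, mul_zero] at h1
    linarith

theorem isKernel_zero : IsKernel (fun _ _ : X => (0 : ℂ)) := by
  rw [isKernel_iff]
  exact Matrix.PosSemidef.zero

theorem IsKernel.mul {k l : X → X → ℂ} (hk : IsKernel k) (hl : IsKernel l) :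
    IsKernel (fun x y => k x y * l x y) := by
  rw [isKernel_iff] at *
  exact psd_hadamard hk hl

theorem posSemidef_dyad {Y : Type*} (δ : Y → ℂ) :
    (Matrix.of fun x y => δ x * conj (δ y) : Matrix Y Y ℂ).PosSemidef := by
  refine posSemidef_of_fin fun N x => ?_
  have := Matrix.posSemidef_vecMulVec_self_star (fun i => δ (x i))
  exact this

theorem isKernel_dyad (δ : X → ℂ) : IsKernel (fun x y => δ x * conj (δ y)) := by
  rw [isKernel_iff]
  exact posSemidef_dyad δ

theorem pickPositive_const {s : X → X → ℂ} (hs : IsKernel s) {n : ℕ}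
    {W : Matrix (Fin n) (Fin n) ℂ} (hW : (1 - W * Wᴴ).PosSemidef) :
    PickPositive s n (fun _ => W) := by
  rw [pickPositive_iff]
  have h1 := psd_hadamard (hW.submatrix (fun p : X × Fin n => p.2))
    ((isKernel_iff.mp hs).submatrix (fun p : X × Fin n => p.1))
  exact h1

theorem pickPositive_zero {s : X → X → ℂ} (hs : IsKernel s) (n : ℕ) :
    PickPositive s n (fun _ => 0) := by
  refine pickPositive_const hs ?_
  simp only [zero_mul, sub_zero]
  exact Matrix.PosSemidef.one

/-- If `Φ` and `Ψ` agree wherever `s(x,x) ≠ 0`, the positivity conditions agree. -/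
theorem PickPositive.congr {s : X → X → ℂ} (hs : IsKernel s) {n : ℕ}
    {Φ Ψ : X → Matrix (Fin n) (Fin n) ℂ} (h : PickPositive s n Φ)
    (hΦ : ∀ x, s x x ≠ 0 → Ψ x = Φ x) : PickPositive s n Ψ := by
  intro N x
  convert h N x using 1
  ext p q
  simp only [pickMatrix, Matrix.of_apply]
  by_cases h0 : s (x p.1) (x q.1) = 0
  · rw [h0]; simp
  · obtain ⟨h1, h2⟩ := hs.diag_ne_zero h0
    rw [hΦ _ h1, hΦ _ h2]

/-- Every kernel on a set with at most two points has the complete Pick property. -/
theorem isCP_of_two_points {Y : Type u} {k : Y → Y → ℂ} (hk : IsKernel k) (a b : Y)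
    (hab : ∀ y, y = a ∨ y = b) : IsCP k := by
  classical
  refine ⟨hk, fun n _ N x hx W hW => ?_⟩
  by_cases hsurj : Function.Surjective x
  · -- all points are data points
    obtain ⟨g, hg⟩ := hsurj.hasRightInverse
    refine ⟨fun y => W (g y), PickPositive.isContractiveMultiplier hk ?_, fun i => ?_⟩
    · intro M z
      have h1 := hW.submatrix (fun p : Fin M × Fin n => (g (z p.1), p.2))
      convert h1 using 1
      ext p q
      simp only [pickMatrix, Matrix.of_apply, Matrix.submatrix_apply, hg _]
    · exact congrArg W (hx (hg (x i)))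
  · -- at most one data point
    obtain ⟨y0, hy0⟩ := not_forall.mp hsurj
    have hsub : ∀ i j : Fin N, i = j := by
      intro i j
      apply hx
      have hi : x i ≠ y0 := fun h => hy0 ⟨i, h⟩
      have hj : x j ≠ y0 := fun h => hy0 ⟨j, h⟩
      rcases hab (x i) with h1 | h1 <;> rcases hab (x j) with h2 | h2 <;>
        rcases hab y0 with h3 | h3 <;> simp_all
    rcases isEmpty_or_nonempty (Fin N) with hN | ⟨⟨i0⟩⟩
    · exact ⟨fun _ => 0, (pickPositive_zero hk n).isContractiveMultiplier hk,
        fun i => hN.elim i⟩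
    · by_cases hs0 : k (x i0) (x i0) = 0
      · refine ⟨fun y => if y = x i0 then W i0 else 0,
          PickPositive.isContractiveMultiplier hk ?_, fun i => ?_⟩
        · refine (pickPositive_zero hk n).congr hk fun y hy => ?_
          have : y ≠ x i0 := by
            rintro rfl
            exact hy hs0
          simp [this]
        · rw [hsub i i0]
          simp
      · refine ⟨fun _ => W i0, PickPositive.isContractiveMultiplier hk ?_, fun i => ?_⟩
        · refine pickPositive_const hk ?_
          have h1 := hW.submatrix (fun a : Fin n => (i0, a))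
          have hpos : 0 < (k (x i0) (x i0)).re := by
            refine lt_of_le_of_ne (hk.diag_re_nonneg _) ?_
            intro h
            apply hs0
            rw [hk.diag_eq_re, ← h]
            simp
          have h2 := h1.smul (inv_nonneg.mpr hpos.le)
          refine psd_congr h2 ?_
          ext a b
          simp only [pickMatrix, Matrix.smul_apply, Matrix.submatrix_apply, Matrix.of_apply,
            Complex.real_smul]
          rw [hk.diag_eq_re (x i0)]
          have : (((k (x i0) (x i0)).re : ℝ) : ℂ) ≠ 0 := by exact_mod_cast hpos.ne'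
          simp only [Complex.ofReal_inv, Complex.ofReal_re]
          rw [mul_comm, mul_assoc, mul_inv_cancel₀ this, mul_one]
        · rw [hsub i i0]

/-- Multiplying a complete Pick kernel by a dyad gives a complete Pick kernel. -/
theorem IsCP.dyad {s : X → X → ℂ} (hs : IsCP s) (δ : X → ℂ) :
    IsCP (fun x y => δ x * s x y * conj (δ y)) := by
  classical
  obtain ⟨hsk, hs⟩ := hs
  have hk : IsKernel (fun x y => δ x * s x y * conj (δ y)) := by
    have := (isKernel_dyad δ).mul hsk
    convert this using 3
    ring
  refine ⟨hk, fun n hn N x hx W hW => ?_⟩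
  let I : Finset (Fin N) := Finset.univ.filter (fun i => δ (x i) ≠ 0)
  let e : Fin I.card ≃ I := I.equivFin.symm
  have hI : ∀ i : Fin N, i ∈ I ↔ δ (x i) ≠ 0 := fun i => by simp [I]
  obtain ⟨Φ', hΦ', hΦ'W⟩ := hs n hn I.card (fun i => x (e i))
    (fun i j hij => e.injective (Subtype.ext (hx hij))) (fun i => W (e i)) (by
      have h1 := psd_hadamard
        (hW.submatrix (fun p : Fin I.card × Fin n => ((e p.1 : Fin N), p.2)))
        (posSemidef_dyad (fun p : Fin I.card × Fin n => (δ (x (e p.1)))⁻¹))
      refine psd_congr h1 ?_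
      ext p q
      have hp := (hI _).mp (e p.1).2
      have hq := (hI _).mp (e q.1).2
      have hq' : conj (δ (x (e q.1))) ≠ 0 := by simpa using hq
      simp only [pickMatrix, Matrix.of_apply, Matrix.hadamard_apply, Matrix.submatrix_apply,
        map_inv₀]
      field_simp)
  refine ⟨fun y => if h : ∃ i, i ∉ I ∧ x i = y then W h.choose else Φ' y,
    PickPositive.isContractiveMultiplier hk ?_, fun i => ?_⟩
  · have h1 : PickPositive (fun x y => δ x * s x y * conj (δ y)) n Φ' := by
      rw [pickPositive_iff]
      have h2 := psd_hadamard (pickPositive_iff.mp (hΦ'.pickPositive hsk))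
        (posSemidef_dyad (fun p : X × Fin n => δ p.1))
      refine psd_congr h2 ?_
      ext p q
      simp only [bigPick, Matrix.of_apply, Matrix.hadamard_apply]
      ring
    refine h1.congr hk fun y hy => ?_
    have : ¬ ∃ i, i ∉ I ∧ x i = y := by
      rintro ⟨i, hi, rfl⟩
      apply hy
      have : δ (x i) = 0 := by
        by_contra h
        exact hi ((hI i).mpr h)
      simp [this]
    simp only [this, dif_neg, not_false_eq_true]
  · by_cases hi : i ∈ I
    · have : ¬ ∃ j, j ∉ I ∧ x j = x i := by
        rintro ⟨j, hj, hji⟩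
        exact hj (hx hji ▸ hi)
      simp only [this, dif_neg, not_false_eq_true]
      have := hΦ'W (e.symm ⟨i, hi⟩)
      simpa using this
    · have h : ∃ j, j ∉ I ∧ x j = x i := ⟨i, hi, rfl⟩
      simp only [h, dif_pos]
      exact congrArg W (hx h.choose_spec.2)

/-- elementary inequality: two numbers in the unit interval at hyperbolic distance zero. -/
theorem eq_of_ineqs {a b u v : ℝ} (ha : 0 ≤ a) (hb : 0 ≤ b) (ha1 : a ≤ 1) (hb1 : b ≤ 1)
    (h1 : u * u + v * v ≤ a * b) (h2 : (1 - u) * (1 - u) + v * v ≤ (1 - a) * (1 - b)) :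
    u = a ∧ v = 0 ∧ a = b := by
  have hu1 : u ≤ (a + b) / 2 := by
    by_contra h
    push Not at h
    nlinarith [sq_nonneg (a - b), mul_self_nonneg v]
  have hu2 : (a + b) / 2 ≤ u := by
    by_contra h
    push Not at h
    nlinarith [sq_nonneg (a - b), mul_self_nonneg v]
  have hu : u = (a + b) / 2 := le_antisymm hu1 hu2
  subst hu
  have hab : (a - b) ^ 2 ≤ 0 := by nlinarith [mul_self_nonneg v]
  have hab' : a = b := by nlinarith [sq_nonneg (a - b)]
  subst hab'
  have hv : v * v ≤ 0 := by nlinarith
  refine ⟨by ring, by nlinarith [mul_self_nonneg v], rfl⟩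

end Pool.Agent.H54
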