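import Mathlib

/-!
Complete Pick kernels, certificates and minimum certificates: definitions used by the
hand-ins on MP_a92470_an.
-/

set_option autoImplicit false

open scoped ComplexOrder ComplexConjugate InnerProductSpace
open Matrix

namespace Pool.Agent.H54

universe u

variable {X : Type u}

/-- A kernel on `X`: for all finite families of points the matrix `[k(x_i,x_j)]` is positive
semidefinite. -/
def IsKernel (k : X → X → ℂ) : Prop :=
  ∀ (N : ℕ) (x : Fin N → X), (Matrix.of fun i j => k (x i) (x j)).PosSemidef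

/-- The block matrix `[(I - W_i W_j^*) s(x_i,x_j)]_{i,j}`. -/
def pickMatrix {n N : ℕ} (s : X → X → ℂ) (x : Fin N → X)
    (W : Fin N → Matrix (Fin n) (Fin n) ℂ) :
    Matrix (Fin N × Fin n) (Fin N × Fin n) ℂ :=
  Matrix.of fun p q => (1 - W p.1 * (W q.1)ᴴ) p.2 q.2 * s (x p.1) (x q.1)

/-- The Hilbert space `H` of `ℂ^n`-valued functions on `X` is `H(s) ⊗ ℂ^n`: its reproducing
kernel is `s(x,y) I_n`, i.e. for all `y` and `v` the function `s(·,y) v` belongs to `H` and
`⟨s(·,y) v, f⟩ = ⟨v, f(y)⟩` for all `f` in `H`. -/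
def IsTensorSpace (s : X → X → ℂ) (n : ℕ) (H : Type u) [NormedAddCommGroup H]
    [InnerProductSpace ℂ H] [RKHS ℂ H X (EuclideanSpace ℂ (Fin n))] : Prop :=
  ∀ (y : X) (v : EuclideanSpace ℂ (Fin n)), ∃ g : H,
    (∀ (x : X) (a : Fin n), g x a = s x y * v a) ∧ ∀ f : H, ⟪g, f⟫_ℂ = ⟪v, f y⟫_ℂ

/-- Multiplication by the matrix valued function `Φ` is a bounded operator of norm at most `1`
from the Hilbert function space `H` to itself. -/
def MulContractive (n : ℕ) (H : Type u) [NormedAddCommGroup H]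
    [InnerProductSpace ℂ H] [RKHS ℂ H X (EuclideanSpace ℂ (Fin n))]
    (Φ : X → Matrix (Fin n) (Fin n) ℂ) : Prop :=
  ∃ M : H →L[ℂ] H, ‖M‖ ≤ 1 ∧
    ∀ (f : H) (x : X) (a : Fin n), M f x a = ∑ b, Φ x a b * f x b

/-- `Φ` is a multiplier of `H(s) ⊗ ℂ^n` of multiplier norm at most `1`. (The Hilbert function
space with reproducing kernel `s(x,y) I_n` is unique up to isometric isomorphism.) -/
def IsContractiveMultiplier (s : X → X → ℂ) (n : ℕ)
    (Φ : X → Matrix (Fin n) (Fin n) ℂ) : Prop :=
  ∃ (H : Type u) (_ : NormedAddCommGroup H) (_ : InnerProductSpace ℂ H) (_ : CompleteSpace H)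
    (_ : RKHS ℂ H X (EuclideanSpace ℂ (Fin n))),
    IsTensorSpace s n H ∧ MulContractive n H Φ

/-- `s` is a CP kernel: a kernel with the complete Pick property. -/
def IsCP (s : X → X → ℂ) : Prop :=
  IsKernel s ∧ ∀ n : ℕ, 1 ≤ n → ∀ (N : ℕ) (x : Fin N → X), Function.Injective x →
    ∀ W : Fin N → Matrix (Fin n) (Fin n) ℂ, (pickMatrix s x W).PosSemidef →
      ∃ Φ : X → Matrix (Fin n) (Fin n) ℂ, IsContractiveMultiplier s n Φ ∧ ∀ i, Φ (x i) = W i

/-- `s` is a certificate for `k`: `s` is a CP kernel and `k = (1 - h) s` for some kernel `h`. -/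
def IsCertificate (k s : X → X → ℂ) : Prop :=
  IsCP s ∧ ∃ h : X → X → ℂ, IsKernel h ∧ ∀ x y, k x y = (1 - h x y) * s x y

/-- `s` is a minimum certificate for the kernel `k`: it is a certificate, and for every
certificate `s'` of `k` the pointwise quotient `s' / s` is a kernel. (Where `s` vanishes the
quotient is undefined, and nothing is required of it there.) -/
def IsMinimumCertificate (k s : X → X → ℂ) : Prop :=
  IsKernel k ∧ IsCertificate k s ∧ ∀ s' : X → X → ℂ, IsCertificate k s' →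
    ∃ q : X → X → ℂ, IsKernel q ∧ ∀ x y, s x y ≠ 0 → q x y = s' x y / s x y

/-- The restriction of `k` to `X' × X'`. -/
def restrict (X' : Set X) (k : X → X → ℂ) : X' → X' → ℂ := fun x y => k x y

end Pool.Agent.H54
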