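import Pool.Agent.H54.CPDefs

/-!
Contractive multipliers of `H(s) ⊗ ℂ^n` are characterised by positivity of
`(I - Φ(x) Φ(y)^*) s(x,y)`.
-/

set_option autoImplicit false

open scoped ComplexOrder ComplexConjugate InnerProductSpace
open Matrix

namespace Pool.Agent.H54

universe u

variable {X : Type u}

theorem posSemidef_of_fin {Y : Type*} {M : Matrix Y Y ℂ}
    (h : ∀ (N : ℕ) (x : Fin N → Y), (M.submatrix x x).PosSemidef) : M.PosSemidef := by
  refine ⟨?_, fun f => ?_⟩
  · ext i j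
    have := (h 2 ![i, j]).isHermitian.apply 0 1
    simpa using this
  · classical
    let e : Fin f.support.card ≃ f.support := f.support.equivFin.symm
    have h1 := (Matrix.posSemidef_iff_dotProduct_mulVec.mp
      (h f.support.card (fun i => (e i : Y)))).2 (fun i => f (e i))
    have h2 : (f.sum fun i xi => f.sum fun j xj => star xi * M i j * xj) =
        star (fun i => f (e i)) ⬝ᵥ
          (M.submatrix (fun i => (e i : Y)) (fun i => (e i : Y))).mulVec (fun i => f (e i)) := by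
      simp only [Finsupp.sum, dotProduct, Matrix.mulVec, Pi.star_apply, Matrix.submatrix_apply]
      rw [← Finset.sum_coe_sort f.support, ← e.sum_comp]
      refine Finset.sum_congr rfl fun i _ => ?_
      rw [← Finset.sum_coe_sort f.support, ← e.sum_comp, Finset.mul_sum]
      refine Finset.sum_congr rfl fun j _ => ?_
      ring
    rw [h2]
    exact h1

theorem isKernel_iff {k : X → X → ℂ} : IsKernel k ↔ (Matrix.of k : Matrix X X ℂ).PosSemidef := by
  constructor
  · intro h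
    exact posSemidef_of_fin fun N x => h N x
  · intro h N x
    exact h.submatrix x

theorem IsKernel.star {k : X → X → ℂ} (h : IsKernel k) (x y : X) : conj (k y x) = k x y := by
  have := (isKernel_iff.mp h).isHermitian.apply x y
  simpa using this

theorem posSemidef_sum_nonneg {Y : Type*} {M : Matrix Y Y ℂ} (h : M.PosSemidef)
    (F : Finset Y) (g : Y → ℂ) :
    0 ≤ ∑ x ∈ F, ∑ y ∈ F, conj (g x) * M x y * g y := by
  have h1 := (Matrix.posSemidef_iff_dotProduct_mulVec.mp
      (h.submatrix (fun i : F => (i : Y)))).2 (fun i => g i)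
  have h2 : (star (fun i : F => g i) ⬝ᵥ
      (M.submatrix (fun i : F => (i : Y)) (fun i : F => (i : Y))).mulVec (fun i : F => g i)) =
      ∑ x ∈ F, ∑ y ∈ F, conj (g x) * M x y * g y := by
    simp only [dotProduct, Matrix.mulVec, Pi.star_apply, Matrix.submatrix_apply]
    rw [← Finset.sum_coe_sort F]
    refine Finset.sum_congr rfl fun i _ => ?_
    rw [← Finset.sum_coe_sort F, Finset.mul_sum]
    refine Finset.sum_congr rfl fun j _ => ?_
    simp only [RCLike.star_def]
    ring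
  rw [← h2]
  exact h1

theorem IsKernel.sum_nonneg {k : X → X → ℂ} (h : IsKernel k) (F : Finset X) (g : X → ℂ) :
    0 ≤ ∑ x ∈ F, ∑ y ∈ F, conj (g x) * k x y * g y :=
  posSemidef_sum_nonneg (isKernel_iff.mp h) F g

/-- The operator valued kernel `s(x,y) I_n` on `X`. -/
noncomputable def tensorKernel (s : X → X → ℂ) (n : ℕ) :
    Matrix X X (EuclideanSpace ℂ (Fin n) →L[ℂ] EuclideanSpace ℂ (Fin n)) :=
  Matrix.of fun x y => s x y • ContinuousLinearMap.id ℂ (EuclideanSpace ℂ (Fin n))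

theorem tensorKernel_posSemidef {s : X → X → ℂ} (hs : IsKernel s) (n : ℕ) :
    (tensorKernel s n).PosSemidef := by
  have htfae : _ ↔ (tensorKernel s n).PosSemidef :=
    (RKHS.posSemidef_tfae (K := tensorKernel s n)).out 2 0
  refine htfae.mp ⟨?_, fun vv => ?_⟩
  · ext x y : 2
    simp only [tensorKernel, Matrix.conjTranspose_apply, Matrix.of_apply]
    rw [star_smul, ContinuousLinearMap.star_eq_adjoint, ContinuousLinearMap.adjoint_id]
    simp [← hs.star x y]
  · have key : (vv.sum fun x w => vv.sum fun x' w' => ⟪(tensorKernel s n x' x) w, w'⟫_ℂ) =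
        ∑ a : Fin n, ∑ x ∈ vv.support, ∑ y ∈ vv.support,
          conj (vv x a) * s x y * (vv y a) := by
      simp only [Finsupp.sum]
      rw [Finset.sum_comm]
      refine Eq.symm (Eq.trans Finset.sum_comm ?_)
      rw [Finset.sum_comm (s := vv.support) (t := vv.support)]
      refine Finset.sum_congr rfl fun x _ => ?_
      rw [Finset.sum_comm]
      refine Finset.sum_congr rfl fun y _ => ?_
      simp only [tensorKernel, Matrix.of_apply, _root_.smul_apply,
        ContinuousLinearMap.id_apply, inner_smul_left, hs.star, PiLp.inner_apply,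
        RCLike.inner_apply, Finset.mul_sum]
      refine Finset.sum_congr rfl fun a _ => ?_
      ring
    rw [key]
    have := Finset.sum_nonneg (s := (Finset.univ : Finset (Fin n)))
      (fun a _ => hs.sum_nonneg vv.support (fun x => vv x a))
    exact (Complex.le_def.mp this).1

/-- The kernel `(I - Φ(x) Φ(y)^*) s(x,y)` is positive semidefinite. -/
def PickPositive (s : X → X → ℂ) (n : ℕ) (Φ : X → Matrix (Fin n) (Fin n) ℂ) : Prop :=
  ∀ (N : ℕ) (x : Fin N → X), (pickMatrix s x (fun i => Φ (x i))).PosSemidef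

/-- the big matrix of `PickPositive`. -/
def bigPick (s : X → X → ℂ) (n : ℕ) (Φ : X → Matrix (Fin n) (Fin n) ℂ) :
    Matrix (X × Fin n) (X × Fin n) ℂ :=
  Matrix.of fun p q => (1 - Φ p.1 * (Φ q.1)ᴴ) p.2 q.2 * s p.1 q.1

theorem pickPositive_iff {s : X → X → ℂ} {n : ℕ} {Φ : X → Matrix (Fin n) (Fin n) ℂ} :
    PickPositive s n Φ ↔ (bigPick s n Φ).PosSemidef := by
  constructor
  · intro h
    refine posSemidef_of_fin fun N z => ?_
    have := (h N (fun i => (z i).1)).submatrix (fun i => (i, (z i).2))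
    exact this
  · intro h N x
    exact h.submatrix (fun p : Fin N × Fin n => (x p.1, p.2))

theorem toEuclideanCLM_apply' {n : ℕ} (A : Matrix (Fin n) (Fin n) ℂ)
    (w : EuclideanSpace ℂ (Fin n)) (a : Fin n) :
    (Matrix.toEuclideanCLM (𝕜 := ℂ) A w) a = ∑ b, A a b * w b := rfl

theorem inner_toEuclideanCLM_conjTranspose {n : ℕ} (A : Matrix (Fin n) (Fin n) ℂ)
    (v w : EuclideanSpace ℂ (Fin n)) :
    ⟪Matrix.toEuclideanCLM (𝕜 := ℂ) Aᴴ v, w⟫_ℂ = ⟪v, Matrix.toEuclideanCLM (𝕜 := ℂ) A w⟫_ℂ := by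
  rw [← Matrix.star_eq_conjTranspose, map_star, ContinuousLinearMap.star_eq_adjoint,
    ContinuousLinearMap.adjoint_inner_left]

theorem inner_sub_inner {n : ℕ} (A B : Matrix (Fin n) (Fin n) ℂ)
    (v w : EuclideanSpace ℂ (Fin n)) :
    ⟪v, w⟫_ℂ - ⟪Matrix.toEuclideanCLM (𝕜 := ℂ) Aᴴ v, Matrix.toEuclideanCLM (𝕜 := ℂ) Bᴴ w⟫_ℂ =
      ∑ a, ∑ b, conj (v a) * (1 - A * Bᴴ) a b * w b := by
  have h1 : ⟪v, w⟫_ℂ - ⟪Matrix.toEuclideanCLM (𝕜 := ℂ) Aᴴ v,
      Matrix.toEuclideanCLM (𝕜 := ℂ) Bᴴ w⟫_ℂ =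
      ⟪v, Matrix.toEuclideanCLM (𝕜 := ℂ) (1 - A * Bᴴ) w⟫_ℂ := by
    rw [inner_toEuclideanCLM_conjTranspose, map_sub, map_mul, map_one,
      _root_.sub_apply, inner_sub_right]
    rfl
  rw [h1, PiLp.inner_apply]
  refine Finset.sum_congr rfl fun a _ => ?_
  simp only [RCLike.inner_apply]
  rw [toEuclideanCLM_apply', Finset.sum_mul]
  refine Finset.sum_congr rfl fun b _ => ?_
  ring

section

variable {s : X → X → ℂ} {n : ℕ} {H : Type u} [NormedAddCommGroup H] [InnerProductSpace ℂ H]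
  [CompleteSpace H] [RKHS ℂ H X (EuclideanSpace ℂ (Fin n))]

theorem isTensorSpace_iff : IsTensorSpace s n H ↔
    ∀ (x y : X) (v : EuclideanSpace ℂ (Fin n)), RKHS.kernel H x y v = s x y • v := by
  constructor
  · intro h x y v
    obtain ⟨g, hg, hgf⟩ := h y v
    have : RKHS.kerFun H y v = g := by
      refine ext_inner_right ℂ fun f => ?_
      rw [hgf, RKHS.kerFun_inner]
    rw [← RKHS.kerFun_apply, this]
    ext a
    rw [hg]
    rfl
  · intro h y v
    refine ⟨RKHS.kerFun H y v, fun x a => ?_, fun f => ?_⟩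
    · rw [RKHS.kerFun_apply, h]
      rfl
    · rw [RKHS.kerFun_inner]

theorem inner_kerFun_kerFun (hs : IsKernel s) (hH : IsTensorSpace s n H) (x y : X)
    (v w : EuclideanSpace ℂ (Fin n)) :
    ⟪RKHS.kerFun H x v, RKHS.kerFun H y w⟫_ℂ = s x y * ⟪v, w⟫_ℂ := by
  rw [← RKHS.kernel_inner, isTensorSpace_iff.mp hH, inner_smul_left, hs.star]

theorem norm_sq_sum_kerFun (hs : IsKernel s) (hH : IsTensorSpace s n H) {ι : Type*}
    (F : Finset ι) (x : ι → X) (v : ι → EuclideanSpace ℂ (Fin n)) :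
    ((‖∑ i ∈ F, RKHS.kerFun H (x i) (v i)‖ ^ 2 : ℝ) : ℂ) =
      ∑ i ∈ F, ∑ j ∈ F, s (x i) (x j) * ⟪v i, v j⟫_ℂ := by
  have := inner_self_eq_norm_sq_to_K (𝕜 := ℂ)
    (∑ i ∈ F, RKHS.kerFun H (x i) (v i))
  simp only [Complex.coe_algebraMap] at this
  push_cast
  rw [← this, sum_inner]
  refine Finset.sum_congr rfl fun i _ => ?_
  rw [inner_sum]
  refine Finset.sum_congr rfl fun j _ => ?_
  exact inner_kerFun_kerFun hs hH _ _ _ _

theorem norm_sq_sub_norm_sq (hs : IsKernel s) (hH : IsTensorSpace s n H) {ι : Type*}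
    (F : Finset ι) (x : ι → X)
    (Φ : ι → Matrix (Fin n) (Fin n) ℂ) (v : ι → EuclideanSpace ℂ (Fin n)) :
    ((‖∑ i ∈ F, RKHS.kerFun H (x i) (v i)‖ ^ 2 -
      ‖∑ i ∈ F, RKHS.kerFun H (x i)
        (Matrix.toEuclideanCLM (𝕜 := ℂ) (Φ i)ᴴ (v i))‖ ^ 2 : ℝ) : ℂ) =
      ∑ p ∈ F ×ˢ (Finset.univ : Finset (Fin n)), ∑ q ∈ F ×ˢ (Finset.univ : Finset (Fin n)),
        conj (v p.1 p.2) * ((1 - Φ p.1 * (Φ q.1)ᴴ) p.2 q.2 * s (x p.1) (x q.1)) * v q.1 q.2 := by
  rw [Complex.ofReal_sub, norm_sq_sum_kerFun hs hH, norm_sq_sum_kerFun hs hH,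
    ← Finset.sum_sub_distrib, Finset.sum_product]
  refine Finset.sum_congr rfl fun i _ => ?_
  rw [← Finset.sum_sub_distrib]
  rw [Finset.sum_congr rfl (fun a _ => Finset.sum_product _ _ _), Finset.sum_comm]
  refine Finset.sum_congr rfl fun j _ => ?_
  rw [← mul_sub, inner_sub_inner, Finset.mul_sum]
  refine Finset.sum_congr rfl fun a _ => ?_
  rw [Finset.mul_sum]
  refine Finset.sum_congr rfl fun b _ => ?_
  ring

end

/-- Positivity implies that `Φ` is a contractive multiplier. -/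
theorem PickPositive.isContractiveMultiplier {s : X → X → ℂ} (hs : IsKernel s) {n : ℕ}
    {Φ : X → Matrix (Fin n) (Fin n) ℂ} (h : PickPositive s n Φ) :
    IsContractiveMultiplier s n Φ := by
  classical
  have hF : Fact (tensorKernel s n).PosSemidef := ⟨tensorKernel_posSemidef hs n⟩
  let H := RKHS.OfKernel (tensorKernel s n)
  let V := EuclideanSpace ℂ (Fin n)
  have hH : IsTensorSpace s n H := by
    rw [isTensorSpace_iff]
    intro x y v
    rw [RKHS.OfKernel.kernel_ofKernel]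
    simp [tensorKernel]
  let E : (X →₀ V) →ₗ[ℂ] H := Finsupp.lsum ℂ (fun x => (RKHS.kerFun H x).toLinearMap)
  let T : (X →₀ V) →ₗ[ℂ] H := Finsupp.lsum ℂ (fun x => (RKHS.kerFun H x ∘L
    Matrix.toEuclideanCLM (𝕜 := ℂ) (Φ x)ᴴ).toLinearMap)
  have hE : ∀ f : X →₀ V, E f = ∑ x ∈ f.support, RKHS.kerFun H x (f x) := fun f => rfl
  have hT : ∀ f : X →₀ V, T f = ∑ x ∈ f.support, RKHS.kerFun H x
      (Matrix.toEuclideanCLM (𝕜 := ℂ) (Φ x)ᴴ (f x)) := fun f => rfl
  have hnorm : ∀ f : X →₀ V, ‖T f‖ ≤ 1 * ‖E f‖ := by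
    intro f
    rw [one_mul]
    refine (sq_le_sq₀ (norm_nonneg _) (norm_nonneg _)).mp ?_
    rw [← sub_nonneg]
    have h1 := norm_sq_sub_norm_sq hs hH f.support (fun x => x) Φ (fun x => f x)
    have h2 := posSemidef_sum_nonneg (pickPositive_iff.mp h)
      (f.support ×ˢ (Finset.univ : Finset (Fin n))) (fun p => f p.1 p.2)
    have h3 : (0 : ℂ) ≤ ((‖E f‖ ^ 2 - ‖T f‖ ^ 2 : ℝ) : ℂ) := by
      rw [hE, hT, h1]
      exact h2
    exact_mod_cast h3
  have hdense : DenseRange E := by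
    have hr : (Submodule.span ℂ {RKHS.kerFun H x v | (x) (v)}) ≤ LinearMap.range E := by
      rw [Submodule.span_le]
      rintro _ ⟨x, v, rfl⟩
      refine ⟨Finsupp.single x v, ?_⟩
      simp [E]
    have h2 := Submodule.topologicalClosure_mono hr
    have h3 : (Submodule.span ℂ {RKHS.kerFun H x v | (x) (v)}).topologicalClosure = ⊤ :=
      RKHS.kerFun_dense H
    rw [h3, top_le_iff] at h2
    rw [DenseRange, dense_iff_closure_eq]
    have h4 := congrArg (fun S : Submodule ℂ H => (S : Set H)) h2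
    simpa [Submodule.topologicalClosure_coe, LinearMap.coe_range] using h4
  let A : H →L[ℂ] H := T.extendOfNorm E
  have hA : ∀ f, A (E f) = T f := fun f =>
    LinearMap.extendOfNorm_eq hdense ⟨1, hnorm⟩ f
  have hAnorm : ‖A‖ ≤ 1 := LinearMap.opNorm_extendOfNorm_le hdense zero_le_one hnorm
  have hAk : ∀ (x : X) (v : V), A (RKHS.kerFun H x v) =
      RKHS.kerFun H x (Matrix.toEuclideanCLM (𝕜 := ℂ) (Φ x)ᴴ v) := by
    intro x v
    have := hA (Finsupp.single x v)
    simpa [E, T] using this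
  refine ⟨H, inferInstance, inferInstance, inferInstance, inferInstance, hH,
    ContinuousLinearMap.adjoint A, ?_, ?_⟩
  · rw [LinearIsometryEquiv.norm_map]
    exact hAnorm
  · intro f x a
    have : (ContinuousLinearMap.adjoint A f) x = Matrix.toEuclideanCLM (𝕜 := ℂ) (Φ x) (f x) := by
      refine ext_inner_left ℂ fun v => ?_
      rw [← RKHS.kerFun_inner, ContinuousLinearMap.adjoint_inner_right, hAk, RKHS.kerFun_inner,
        inner_toEuclideanCLM_conjTranspose]
    rw [this, toEuclideanCLM_apply']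

theorem pickMatrix_isHermitian {s : X → X → ℂ} (hs : IsKernel s) {n N : ℕ} (x : Fin N → X)
    (W : Fin N → Matrix (Fin n) (Fin n) ℂ) : (pickMatrix s x W).IsHermitian := by
  have key : ∀ (A B : Matrix (Fin n) (Fin n) ℂ) (a b : Fin n),
      star ((1 - A * Bᴴ) a b) = (1 - B * Aᴴ) b a := by
    intro A B a b
    rw [← Matrix.conjTranspose_apply, Matrix.conjTranspose_sub, Matrix.conjTranspose_one,
      Matrix.conjTranspose_mul, Matrix.conjTranspose_conjTranspose]
  ext p q
  rw [Matrix.conjTranspose_apply, pickMatrix, Matrix.of_apply, star_mul', key]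
  simp only [RCLike.star_def, hs.star, Matrix.of_apply]

/-- A contractive multiplier satisfies the positivity condition. -/
theorem IsContractiveMultiplier.pickPositive {s : X → X → ℂ} (hs : IsKernel s) {n : ℕ}
    {Φ : X → Matrix (Fin n) (Fin n) ℂ} (h : IsContractiveMultiplier s n Φ) :
    PickPositive s n Φ := by
  classical
  obtain ⟨H, _, _, _, _, hH, M, hM, hMf⟩ := h
  have hMf' : ∀ (f : H) (x : X), M f x = Matrix.toEuclideanCLM (𝕜 := ℂ) (Φ x) (f x) := by
    intro f x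
    ext a
    rw [hMf, toEuclideanCLM_apply']
  have hAk : ∀ (x : X) (v : EuclideanSpace ℂ (Fin n)),
      ContinuousLinearMap.adjoint M (RKHS.kerFun H x v) =
      RKHS.kerFun H x (Matrix.toEuclideanCLM (𝕜 := ℂ) (Φ x)ᴴ v) := by
    intro x v
    refine ext_inner_right ℂ fun f => ?_
    rw [ContinuousLinearMap.adjoint_inner_left, RKHS.kerFun_inner, hMf', RKHS.kerFun_inner,
      inner_toEuclideanCLM_conjTranspose]
  intro N x
  rw [Matrix.posSemidef_iff_dotProduct_mulVec]
  refine ⟨?_, fun u => ?_⟩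
  · exact pickMatrix_isHermitian hs x _
  · let v : Fin N → EuclideanSpace ℂ (Fin n) := fun i => WithLp.toLp 2 (fun a => u (i, a))
    have h1 := norm_sq_sub_norm_sq hs hH Finset.univ x (fun i => Φ (x i)) v
    have h2 : (∑ i, RKHS.kerFun H (x i) (Matrix.toEuclideanCLM (𝕜 := ℂ) (Φ (x i))ᴴ (v i))) =
        ContinuousLinearMap.adjoint M (∑ i, RKHS.kerFun H (x i) (v i)) := by
      rw [map_sum]
      exact Finset.sum_congr rfl fun i _ => (hAk _ _).symm
    have h3 : ‖∑ i, RKHS.kerFun H (x i) (Matrix.toEuclideanCLM (𝕜 := ℂ) (Φ (x i))ᴴ (v i))‖ ≤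
        ‖∑ i, RKHS.kerFun H (x i) (v i)‖ := by
      rw [h2]
      refine (ContinuousLinearMap.le_opNorm _ _).trans ?_
      rw [LinearIsometryEquiv.norm_map]
      calc ‖M‖ * _ ≤ 1 * _ := mul_le_mul_of_nonneg_right hM (norm_nonneg _)
        _ = _ := one_mul _
    have h4 : (0 : ℂ) ≤ ((‖∑ i, RKHS.kerFun H (x i) (v i)‖ ^ 2 -
      ‖∑ i, RKHS.kerFun H (x i)
        (Matrix.toEuclideanCLM (𝕜 := ℂ) (Φ (x i))ᴴ (v i))‖ ^ 2 : ℝ) : ℂ) := by
      have : 0 ≤ ‖∑ i, RKHS.kerFun H (x i) (v i)‖ ^ 2 -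
        ‖∑ i, RKHS.kerFun H (x i)
        (Matrix.toEuclideanCLM (𝕜 := ℂ) (Φ (x i))ᴴ (v i))‖ ^ 2 := by
        rw [sub_nonneg]
        exact pow_le_pow_left₀ (norm_nonneg _) h3 2
      exact_mod_cast this
    rw [h1] at h4
    convert h4 using 1
    simp only [dotProduct, Matrix.mulVec, Pi.star_apply, pickMatrix, Matrix.of_apply,
      Finset.univ_product_univ]
    refine Finset.sum_congr rfl fun p _ => ?_
    rw [Finset.mul_sum]
    refine Finset.sum_congr rfl fun q _ => ?_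
    simp only [v, RCLike.star_def]
    ring

end Pool.Agent.H54
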